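import Mathlib
import Pool.Agent.T9h92.INF.FourGuar

set_option autoImplicit false

namespace Pool.Agent.Results.MP_90dd8d_pr.FourCellsFast

open Finset Pool.Agent.H428I Pool.Agent.T9h92.INF

/-- **The infiltration game on `n = 4` cells with a searcher of speed `w ≥ 3`: value and optimal
strategies of both players, for every `lam`.** -/
theorem result (lam : ℝ) (h0 : 0 < lam) (h1 : lam < 1) :
    valFour lam = lam * (1 + lam) ^ 2 * (2 + lam) / (7 + 4 * lam + lam ^ 2) ∧
    -- the infiltrator's mixture is a probability distribution over legal paths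
    (∀ i, 0 < wI lam i / (7 + 4 * lam + lam ^ 2)) ∧
    ∑ i, wI lam i / (7 + 4 * lam + lam ^ 2) = 1 ∧ (∀ i, IsInfil 4 (pth (lI i))) ∧
    -- the infiltrator's guarantee, for every speed of the searcher
    (∀ (w : ℕ) (y : ℕ → ℤ), IsSearch 4 w y →
      valFour lam ≤ ∑ i, wI lam i / (7 + 4 * lam + lam ^ 2) * win 4 lam (pth (lI i)) y) ∧
    -- the searcher's mixture is a probability distribution over paths, legal for `w ≥ 3`
    (∀ j, 0 < wS lam j / (7 + 4 * lam + lam ^ 2)) ∧
    ∑ j, wS lam j / (7 + 4 * lam + lam ^ 2) = 1 ∧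
    (∀ j (w : ℕ), 3 ≤ w → IsSearch 4 w (sp (aS j) (bS j))) ∧
    -- the searcher's guarantee
    (∀ x : ℕ → ℤ, IsInfil 4 x →
      ∑ j, wS lam j / (7 + 4 * lam + lam ^ 2) * win 4 lam x (sp (aS j) (bS j)) ≤ valFour lam) :=
  ⟨rfl, fun i => div_pos (wI_pos h0 i) (den_pos h0), wI_sum h0, lI_infil,
    fun w y hy => four_infil h0 h1 w y hy, fun j => div_pos (wS_pos h0 j) (den_pos h0),
    wS_sum h0, sp_search, fun x hx => four_search h0 h1 x hx⟩

end Pool.Agent.Results.MP_90dd8d_pr.FourCellsFast
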