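import Mathlib
import Pool.Agent.T9h92.INF.Slow2

set_option autoImplicit false

namespace Pool.Agent.Results.MP_90dd8d_pr.ThreeCellsSlow

open Finset Pool.Agent.H428I Pool.Agent.T9h92.INF

/-- **The infiltration game on `n = 3` cells with a searcher of speed `w = 1`: value and optimal
strategies of both players, for every `lam`.** -/
theorem result (lam : ℝ) (h0 : 0 < lam) (h1 : lam < 1) :
    -- the value and the parameters of the two geometric delays
    rho lam = ((1 + lam) ^ 2 - Real.sqrt ((1 + lam) ^ 4 - 4 * lam ^ 2 * (1 + lam))) /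
      (2 * lam ^ 2) ∧
    zeta lam = lam * rho lam / (1 + lam) ∧
    val lam = lam * (lam + (1 - lam) * rho lam) ∧
    0 < rho lam ∧ rho lam < 1 ∧ 0 < zeta lam ∧ zeta lam < 1 ∧
    -- both are probability distributions over legal paths
    ∑' s : ℕ, (1 - rho lam) * rho lam ^ s = 1 ∧ ∑' a : ℕ, (1 - zeta lam) * zeta lam ^ a = 1 ∧
    (∀ s, IsInfil 3 (delay 3 s)) ∧ (∀ a, IsSearch 3 1 (delay 2 a)) ∧
    -- the infiltrator's guarantee
    (∀ y : ℕ → ℤ, IsSearch 3 1 y →
      Summable (fun s : ℕ => (1 - rho lam) * rho lam ^ s * win 3 lam (delay 3 s) y) ∧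
      val lam ≤ ∑' s : ℕ, (1 - rho lam) * rho lam ^ s * win 3 lam (delay 3 s) y) ∧
    -- the searcher's guarantee
    (∀ x : ℕ → ℤ, IsInfil 3 x →
      Summable (fun a : ℕ => (1 - zeta lam) * zeta lam ^ a * win 3 lam x (delay 2 a)) ∧
      ∑' a : ℕ, (1 - zeta lam) * zeta lam ^ a * win 3 lam x (delay 2 a) ≤ val lam) := by
  have hr0 := rho_pos h0 h1
  have hr1 := rho_lt_one h0 h1
  have hz0 := zeta_pos h0 h1
  have hz1 := zeta_lt_one h0 h1
  have geo : ∀ r : ℝ, 0 < r → r < 1 → ∑' s : ℕ, (1 - r) * r ^ s = 1 := by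
    intro r hr hr'
    rw [tsum_mul_left, tsum_geometric_of_lt_one hr.le hr']
    exact mul_inv_cancel₀ (by linarith)
  exact ⟨rfl, rfl, rfl, hr0, hr1, hz0, hz1, geo _ hr0 hr1, geo _ hz0 hz1, delay_infil,
    delay_search, infil_guarantee h0 h1, search_guarantee h0 h1⟩

end Pool.Agent.Results.MP_90dd8d_pr.ThreeCellsSlow
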