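import Mathlib
import Pool.Agent.T9h92.INF.LogLower
import Pool.Agent.T9h92.INF.Ord3

set_option autoImplicit false

namespace Pool.Agent.Results.MP_90dd8d_pr.UnitSpeedOrder

open Finset Pool.Agent.H428I Pool.Agent.T9h92.INF

/-- **The infiltration game with a searcher of speed `w = 1`: for fixed `lam` the value is of the
exact order `1 / ln n`.** -/
theorem result (lam : ℝ) (h0 : 0 < lam) (h1 : lam < 1) :
    -- the infiltrator's guarantee for `w = 1`: the delay `s` with probability `1 / ((s + 1) H_n)`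
    (∀ n : ℕ, 1 ≤ n →
      (∀ s : ℕ, 0 < 1 / (((s : ℝ) + 1) * (harmonic n : ℝ))) ∧
      ∑ s ∈ range n, 1 / (((s : ℝ) + 1) * (harmonic n : ℝ)) = 1 ∧
      (∀ s, IsInfil n (delay n s)) ∧
      lam ^ 2 / (1 + Real.log n) ≤ lam ^ 2 / (harmonic n : ℝ) ∧
      ∀ y : ℕ → ℤ, IsSearch n 1 y → lam ^ 2 / (harmonic n : ℝ) ≤
        ∑ s ∈ range n, 1 / (((s : ℝ) + 1) * (harmonic n : ℝ)) * win n lam (delay n s) y) ∧
    -- the searcher's guarantee for every speed `w ≥ 1`
    (∀ n L : ℕ, 1 ≤ L → 16 ^ L ≤ n →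
      ∑ _i : Fin L, ∑ _e : Fin L → Bool, 1 / ((L : ℝ) * 2 ^ L) = 1 ∧
      (∀ (i : Fin L) (e : Fin L → Bool) (w : ℕ), 1 ≤ w → IsSearch n w (zpath L i (ext e))) ∧
      ∀ x : ℕ → ℤ, IsInfil n x →
        ∑ i : Fin L, ∑ e : Fin L → Bool,
          1 / ((L : ℝ) * 2 ^ L) * win n lam x (zpath L i (ext e)) ≤ cst lam / L) ∧
    -- the searcher's guarantee for every speed `w ≥ 1` and every `n`, in terms of `ln n`
    (∃ C : ℝ, 0 < C ∧ ∀ n : ℕ, 2 ≤ n →
      ∃ (ι : Type) (_ : Fintype ι) (p : ι → ℝ) (y : ι → ℕ → ℤ),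
        (∀ j, 0 ≤ p j) ∧ ∑ j, p j = 1 ∧ (∀ j (w : ℕ), 1 ≤ w → IsSearch n w (y j)) ∧
        ∀ x : ℕ → ℤ, IsInfil n x → ∑ j, p j * win n lam x (y j) ≤ C / Real.log n) := by
  have hunif : ∀ L : ℕ, 1 ≤ L →
      ∑ _i : Fin L, ∑ _e : Fin L → Bool, 1 / ((L : ℝ) * 2 ^ L) = 1 := by
    intro L hL
    have hLp : (0 : ℝ) < L := by exact_mod_cast hL
    simp only [sum_const, card_univ, Fintype.card_fun, Fintype.card_fin, Fintype.card_bool,
      nsmul_eq_mul]
    push_cast
    field_simp
  refine ⟨fun n hn => ?_, fun n L hL hn => ⟨hunif L hL,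
    fun i e w hw => zpath_search L i n (ext e) i.2 hn w hw,
    fun x hx => order_search h0 h1 hL hn x hx⟩, ?_⟩
  · have hH : (0 : ℝ) < (harmonic n : ℝ) := by exact_mod_cast harmonic_pos (by omega)
    have hHs : (harmonic n : ℝ) = ∑ s ∈ range n, 1 / ((s : ℝ) + 1) := by
      unfold harmonic
      push_cast
      exact sum_congr rfl fun s _ => by rw [one_div]
    have e : ∀ s : ℕ, 1 / (((s : ℝ) + 1) * (harmonic n : ℝ)) =
        1 / ((s : ℝ) + 1) / (harmonic n : ℝ) := fun s => by rw [div_div]
    refine ⟨fun s => by positivity, ?_, delay_infil_gen n,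
      div_le_div_of_nonneg_left (by positivity) hH (harmonic_le_one_add_log n), ?_⟩
    · simp only [e]
      rw [← sum_div, ← hHs, div_self hH.ne']
    · intro y hy
      have h := log_lower h0 h1 hn y hy
      have e2 : ∑ s ∈ range n, 1 / (((s : ℝ) + 1) * (harmonic n : ℝ)) * win n lam (delay n s) y =
          (∑ s ∈ range n, 1 / ((s : ℝ) + 1) * win n lam (delay n s) y) / (harmonic n : ℝ) := by
        rw [sum_div]
        exact sum_congr rfl fun s _ => by rw [e]; ring
      rw [e2]
      exact div_le_div_of_nonneg_right h hH.le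
  · have hc := two_le_cst h0 h1
    have hl16 : 0 < Real.log 16 := Real.log_pos (by norm_num)
    refine ⟨2 * Real.log 16 * cst lam, by positivity, fun n hn => ?_⟩
    have hlog : 0 < Real.log n := Real.log_pos (by exact_mod_cast (by omega : 1 < n))
    rcases Nat.lt_or_ge n 16 with h | h
    · refine ⟨Unit, inferInstance, fun _ => 1, fun _ _ => 1, fun _ => zero_le_one, by simp,
        ?_, ?_⟩
      · intro _ w _
        refine ⟨rfl, fun k => ⟨le_refl _, ?_, by simp⟩⟩
        show (1 : ℤ) ≤ n
        exact_mod_cast (by omega : 1 ≤ n)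
      · intro x hx
        simp only [Finset.univ_unique, Finset.sum_const, Finset.card_singleton, one_smul, one_mul]
        refine (win_le_one h0 h1 _ _).trans ?_
        rw [le_div_iff₀ hlog, one_mul]
        have h2 : Real.log n ≤ Real.log 16 :=
          Real.log_le_log (by exact_mod_cast (by omega : 0 < n)) (by exact_mod_cast h.le)
        nlinarith
    · set L := Nat.log 16 n with hL
      have hL1 : 1 ≤ L := Nat.log_pos (by norm_num) h
      have hn16 : 16 ^ L ≤ n := Nat.pow_log_le_self 16 (by omega)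
      have hn16' : n < 16 ^ (L + 1) := Nat.lt_pow_succ_log_self (by norm_num) n
      have hLp : (0 : ℝ) < L := by exact_mod_cast hL1
      have hnorm := hunif L hL1
      refine ⟨Fin L × (Fin L → Bool), inferInstance, fun _ => 1 / ((L : ℝ) * 2 ^ L),
        fun j => zpath L j.1 (ext j.2), fun _ => by positivity, ?_, ?_, ?_⟩
      · rw [Fintype.sum_prod_type]
        exact hnorm
      · intro j w hw
        exact zpath_search L j.1 n (ext j.2) j.1.2 hn16 w hw
      · intro x hx
        rw [Fintype.sum_prod_type]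
        refine (order_search h0 h1 hL1 hn16 x hx).trans ?_
        have h3 : Real.log n ≤ 2 * L * Real.log 16 := by
          have h4 : Real.log n ≤ Real.log ((16 : ℝ) ^ (L + 1)) :=
            Real.log_le_log (by exact_mod_cast (by omega : 0 < n)) (by exact_mod_cast hn16'.le)
          rw [Real.log_pow] at h4
          push_cast at h4
          have h5 : (1 : ℝ) ≤ L := by exact_mod_cast hL1
          nlinarith
        rw [div_le_div_iff₀ hLp hlog]
        have h6 : 0 < cst lam := by linarith
        calc cst lam * Real.log n ≤ cst lam * (2 * L * Real.log 16) :=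
              mul_le_mul_of_nonneg_left h3 h6.le
          _ = 2 * Real.log 16 * cst lam * L := by ring

end Pool.Agent.Results.MP_90dd8d_pr.UnitSpeedOrder
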